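import Pool.Agent.H95.SSing

set_option autoImplicit false
open Metric Pool.Agent.H95.SSingDefs

theorem Pool.Agent.Results.MP_628ecd_an.SSNC.result :
    ∃ (E : Type) (_ : NormedAddCommGroup E) (_ : NormedSpace ℂ E) (J : E → ℂ → ℂ)
      (T : E →L[ℂ] E), IsBSAF J ∧ (∀ f, ∀ z ∈ ball (0 : ℂ) 1, J (T f) z = J f (z / 2)) ∧
        StrictlySingular T ∧ ¬ IsCompactOperator T :=
  Pool.Agent.H95.SSing.main
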